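import Pool.Agent.H3.BI.Stm1

/-!
# Project BD, part DRF: mean value of the potential of a family after `m` children
-/

set_option autoImplicit false

open scoped ENNReal
open Finset
open Pool.Agent.H3.BI

namespace Pool.Agent.H39.BD

variable {d : ℕ}

theorem avg_ofReal (hd : 0 < d) (a : Dir d → ℝ) (ha : ∀ u, 0 ≤ a u) :
    (∑ u : Dir d, ENNReal.ofReal (a u)) / (2 * d) =
      ENNReal.ofReal ((∑ u, a u) / (2 * d)) := by
  have hd' : (0 : ℝ) < 2 * d := by positivity
  rw [ENNReal.ofReal_div_of_pos hd', ENNReal.ofReal_sum_of_nonneg (fun u _ => ha u),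
    ENNReal.ofReal_mul (by norm_num), ENNReal.ofReal_ofNat, ENNReal.ofReal_natCast]

theorem avg_le (hd : 0 < d) (F : Dir d → ℝ≥0∞) (a : Dir d → ℝ) (b : ℝ) (ha : ∀ u, 0 ≤ a u)
    (hF : ∀ u, F u ≤ ENNReal.ofReal (a u)) (hb : (∑ u, a u) / (2 * d) ≤ b) :
    (∑ u : Dir d, F u) / (2 * d) ≤ ENNReal.ofReal b := by
  refine (ENNReal.div_le_div_right (Finset.sum_le_sum fun u _ => hF u) _).trans ?_
  rw [avg_ofReal hd a ha]
  exact ENNReal.ofReal_le_ofReal hb

/-! ## directions -/

/-- The opposite direction. -/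
def opp : Dir d ≃ Dir d where
  toFun u := (u.1, !u.2)
  invFun u := (u.1, !u.2)
  left_inv u := by simp
  right_inv u := by simp

theorem uvec_opp (u : Dir d) : uvec (opp u) = -uvec u := by
  rcases u with ⟨i, b⟩
  cases b <;> simp [opp, uvec, ← Pi.single_neg]

theorem sum_opp (f : Site d → ℝ) : ∑ u : Dir d, f (-uvec u) = ∑ u : Dir d, f (uvec u) := by
  rw [← Equiv.sum_comp (opp : Dir d ≃ Dir d) fun u => f (uvec u)]
  simp only [uvec_opp]

theorem PP_neg (k : Site d → ℝ) (hs : ∀ x, k (-x) = k x) (x : Site d) : PP k (-x) = PP k x := by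
  unfold PP
  congr 1
  rw [← Equiv.sum_comp (opp : Dir d ≃ Dir d) fun u => k (x + uvec u)]
  refine Finset.sum_congr rfl fun u _ => ?_
  rw [uvec_opp, ← hs (x + -uvec u)]
  congr 1
  abel

theorem nsq_add_single (a : Site d) (i : Fin d) (c : ℤ) :
    nsq (a + (Pi.single i c : Site d)) = nsq a + 2 * (a i) * c + (c : ℝ) ^ 2 := by
  unfold nsq
  rw [← Finset.add_sum_erase _ _ (Finset.mem_univ i),
    ← Finset.add_sum_erase Finset.univ (fun j => ((a j : ℤ) : ℝ) ^ 2) (Finset.mem_univ i)]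
  have h : ∀ j ∈ Finset.univ.erase i, (((a + (Pi.single i c : Site d)) j : ℤ) : ℝ) ^ 2 =
      ((a j : ℤ) : ℝ) ^ 2 := by
    intro j hj
    have hj' : j ≠ i := (Finset.mem_erase.1 hj).1
    simp [Pi.single_eq_of_ne hj']
  rw [Finset.sum_congr rfl h]
  simp only [Pi.add_apply, Pi.single_eq_same]
  push_cast
  ring

theorem sum_nsq (a : Site d) : ∑ u : Dir d, nsq (a + uvec u) = 2 * d * (nsq a + 1) := by
  rw [Fintype.sum_prod_type]
  have h : ∀ i : Fin d, ∑ b : Bool, nsq (a + uvec (i, b)) = 2 * (nsq a + 1) := by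
    intro i
    rw [Fintype.sum_bool]
    simp only [uvec, if_true, Bool.false_eq_true, if_false]
    rw [nsq_add_single, nsq_add_single]
    push_cast
    ring
  rw [Finset.sum_congr rfl fun i _ => h i]
  rw [Finset.sum_const, Finset.card_univ, Fintype.card_fin, nsmul_eq_mul]
  ring

theorem sum_PP (hd : 0 < d) (f : Site d → ℝ) (x : Site d) :
    ∑ u : Dir d, f (x + uvec u) = 2 * d * PP f x := by
  unfold PP
  have hd' : (2 * (d : ℝ)) ≠ 0 := by positivity
  field_simp

/-! ## the energy -/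

theorem en_perm (k : Site d → ℝ) {Z Z' : List (Site d)} (h : Z.Perm Z') : en k Z = en k Z' := by
  unfold en
  have h1 : ∀ p, (Z.map fun q => k (p - q)).sum = (Z'.map fun q => k (p - q)).sum :=
    fun p => (h.map _).sum_eq
  simp only [h1]
  exact (h.map _).sum_eq

theorem en_cons (k : Site d → ℝ) (hs : ∀ x, k (-x) = k x) (y : Site d) (Z : List (Site d)) :
    en k (y :: Z) = k 0 + 2 * (Z.map fun q => k (y - q)).sum + en k Z := by
  unfold en
  simp only [List.map_cons, List.sum_cons, sub_self]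
  rw [List.sum_map_add]
  have h : (Z.map fun p => k (p - y)) = Z.map fun q => k (y - q) := by
    refine List.map_congr_left fun p _ => ?_
    rw [← hs (p - y), neg_sub]
  rw [h]
  ring

theorem en_append_ge (k : Site d → ℝ) (hs : ∀ x, k (-x) = k x) (hk : ∀ x, 0 ≤ k x)
    (S W : List (Site d)) : en k S ≤ en k (S ++ W) := by
  induction W with
  | nil => simp
  | cons y W ih =>
    rw [en_perm k (List.perm_middle (a := y) (l₁ := S) (l₂ := W)), en_cons k hs]
    have h1 : 0 ≤ ((S ++ W).map fun q => k (y - q)).sum :=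
      List.sum_nonneg fun a ha => by
        obtain ⟨q, _, rfl⟩ := List.mem_map.1 ha
        exact hk _
    have h2 := hk 0
    linarith

/-! ## the majorant -/

/-- The majorant without the factor `1 / w ^ 2` and without the reward. -/
noncomputable def Psi (k : Site d → ℝ) (μ γ : ℝ) (x0 x : Site d) (c0 : ℝ) (m : ℕ)
    (Z N : List (Site d)) (len : ℝ) : ℝ :=
  μ * (en k Z + 2 * m * (Z.map fun q => PP k (x - q)).sum + m * k 0 +
    m * (m - 1) * PP (PP k) 0 - c0) +
    (N.map fun y => nsq (y - x0)).sum + m * (nsq (x - x0) + 1) + γ * (len + m)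

theorem Psi_perm (k : Site d → ℝ) (μ γ : ℝ) (x0 x : Site d) (c0 : ℝ) (m : ℕ)
    {Z Z' N N' : List (Site d)} (len : ℝ) (hZ : Z.Perm Z') (hN : N.Perm N') :
    Psi k μ γ x0 x c0 m Z N len = Psi k μ γ x0 x c0 m Z' N' len := by
  unfold Psi
  rw [en_perm k hZ, (hZ.map _).sum_eq, (hN.map _).sum_eq]

theorem PP_nonneg (k : Site d → ℝ) (hk : ∀ x, 0 ≤ k x) (x : Site d) : 0 ≤ PP k x := by
  unfold PP
  exact div_nonneg (Finset.sum_nonneg fun _ _ => hk _) (by positivity)

theorem Psi_nonneg (k : Site d → ℝ) (μ γ : ℝ) (x0 x : Site d) (c0 : ℝ) (m : ℕ)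
    (Z N : List (Site d)) (len : ℝ) (hμ : 0 ≤ μ) (hγ : 0 ≤ γ) (hk : ∀ x, 0 ≤ k x)
    (hc : c0 ≤ en k Z) (hl : 0 ≤ len) : 0 ≤ Psi k μ γ x0 x c0 m Z N len := by
  unfold Psi
  have h1 : 0 ≤ (Z.map fun q => PP k (x - q)).sum := List.sum_nonneg fun a ha => by
    obtain ⟨q, _, rfl⟩ := List.mem_map.1 ha
    exact PP_nonneg k hk _
  have h2 : 0 ≤ (N.map fun y => nsq (y - x0)).sum := List.sum_nonneg fun a ha => by
    obtain ⟨q, _, rfl⟩ := List.mem_map.1 ha
    exact nsq_nonneg _
  have h3 : (0 : ℝ) ≤ m * (m - 1) := by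
    rcases Nat.eq_zero_or_pos m with rfl | hm
    · simp
    · have : (1 : ℝ) ≤ m := by exact_mod_cast hm
      nlinarith
  have h4 : 0 ≤ PP (PP k) 0 := PP_nonneg _ (PP_nonneg k hk) _
  have h5 := nsq_nonneg (x - x0)
  have h6 : (0 : ℝ) ≤ m := Nat.cast_nonneg m
  have h7 := hk 0
  have h8 : 0 ≤ en k Z + 2 * m * (Z.map fun q => PP k (x - q)).sum + m * k 0 +
      m * (m - 1) * PP (PP k) 0 - c0 := by
    have a1 : 0 ≤ 2 * (m : ℝ) * (Z.map fun q => PP k (x - q)).sum := by positivity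
    have a2 : 0 ≤ (m : ℝ) * k 0 := by positivity
    have a3 : 0 ≤ (m : ℝ) * (m - 1) * PP (PP k) 0 := mul_nonneg h3 h4
    linarith
  have h9 : 0 ≤ μ * (en k Z + 2 * m * (Z.map fun q => PP k (x - q)).sum + m * k 0 +
      m * (m - 1) * PP (PP k) 0 - c0) := mul_nonneg hμ h8
  have h10 : 0 ≤ (m : ℝ) * (nsq (x - x0) + 1) := by positivity
  have h11 : 0 ≤ γ * (len + m) := by positivity
  linarith

theorem Psi_len (k : Site d → ℝ) (μ γ : ℝ) (x0 x : Site d) (c0 : ℝ) (m : ℕ)
    (Z N : List (Site d)) (len c : ℝ) :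
    Psi k μ γ x0 x c0 m Z N (len + c) = Psi k μ γ x0 x c0 m Z N len + γ * c := by
  unfold Psi
  ring

theorem sum_list_PP (hd : 0 < d) (k : Site d → ℝ) (x : Site d) (Z : List (Site d)) :
    ∑ u : Dir d, (Z.map fun q => k (x + uvec u - q)).sum =
      2 * d * (Z.map fun q => PP k (x - q)).sum := by
  induction Z with
  | nil => simp
  | cons q Z ih =>
    simp only [List.map_cons, List.sum_cons]
    rw [Finset.sum_add_distrib, ih]
    have h : ∀ u : Dir d, k (x + uvec u - q) = k (x - q + uvec u) := fun u => by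
      congr 1
      abel
    rw [Finset.sum_congr rfl fun u _ => h u, sum_PP hd k (x - q)]
    ring

theorem Psi_avg (hd : 0 < d) (k : Site d → ℝ) (hs : ∀ x, k (-x) = k x) (μ γ : ℝ)
    (x0 x : Site d) (c0 : ℝ) (m : ℕ) (Z N : List (Site d)) (len : ℝ) :
    (∑ u : Dir d, Psi k μ γ x0 x c0 m ((x + uvec u) :: Z) ((x + uvec u) :: N) (len + 1)) /
      (2 * d) = Psi k μ γ x0 x c0 (m + 1) Z N len := by
  have hd' : (2 * (d : ℝ)) ≠ 0 := by positivity
  rw [div_eq_iff hd']
  have hcard : ((Finset.univ : Finset (Dir d)).card : ℝ) = 2 * d := by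
    rw [Finset.card_univ, Fintype.card_prod, Fintype.card_fin, Fintype.card_bool]
    push_cast
    ring
  have e1 := sum_list_PP hd k x Z
  have e2 : ∑ u : Dir d, PP k (x - (x + uvec u)) = 2 * d * PP (PP k) 0 := by
    have : ∀ u : Dir d, PP k (x - (x + uvec u)) = PP k (0 + uvec u) := fun u => by
      rw [← PP_neg k hs]
      congr 1
      abel
    rw [Finset.sum_congr rfl fun u _ => this u, sum_PP hd (PP k) 0]
  have e3 : ∑ u : Dir d, nsq (x + uvec u - x0) = 2 * d * (nsq (x - x0) + 1) := by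
    rw [← sum_nsq]
    refine Finset.sum_congr rfl fun u _ => ?_
    congr 1
    abel
  have h : ∀ u : Dir d, Psi k μ γ x0 x c0 m ((x + uvec u) :: Z) ((x + uvec u) :: N) (len + 1) =
      (μ * (en k Z + k 0 + 2 * m * (Z.map fun q => PP k (x - q)).sum + m * k 0 +
        m * (m - 1) * PP (PP k) 0 - c0) + (N.map fun y => nsq (y - x0)).sum +
        m * (nsq (x - x0) + 1) + γ * (len + 1 + m)) +
      (2 * μ) * (Z.map fun q => k (x + uvec u - q)).sum +
      (2 * μ * m) * PP k (x - (x + uvec u)) + nsq (x + uvec u - x0) := by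
    intro u
    unfold Psi
    rw [en_cons k hs]
    simp only [List.map_cons, List.sum_cons]
    ring
  rw [Finset.sum_congr rfl fun u _ => h u]
  rw [Finset.sum_add_distrib, Finset.sum_add_distrib, Finset.sum_add_distrib,
    ← Finset.mul_sum, ← Finset.mul_sum, e1, e2, e3, Finset.sum_const, nsmul_eq_mul, hcard]
  unfold Psi
  push_cast
  ring

/-! ## one arrival -/

theorem arrE_perm (D B : Set (Site d)) (y : Site d) (e : ES d) :
    ((arrE D B y e).M ++ (arrE D B y e).F).Perm (y :: (e.M ++ e.F)) := by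
  classical
  unfold arrE
  split_ifs <;> simp [List.perm_middle]

theorem arrE_len (D B : Set (Site d)) (y : Site d) (e : ES d) :
    ((arrE D B y e).F.length : ℝ) ≤ e.F.length + 1 := by
  classical
  unfold arrE
  split_ifs <;> simp

theorem arrE_len' (D B : Set (Site d)) (y : Site d) (e : ES d)
    (h : ¬ (y ∈ (e.A : Set (Site d)) ∩ B)) :
    ((arrE D B y e).F.length : ℝ) ≤ e.F.length := by
  classical
  unfold arrE
  split_ifs with h1 h2 h3
  · exact absurd ⟨h1, h2⟩ h
  · simp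
  · simp
  · simp

theorem arrE_in (D B : Set (Site d)) (y : Site d) (e : ES d)
    (h : y ∈ (e.A : Set (Site d)) ∩ B) : arrE D B y e = ⟨e.A, y :: e.F, e.M, e.O⟩ := by
  classical
  unfold arrE
  rw [if_pos (show y ∈ e.A from h.1), if_pos h.2]

theorem perm3 {S M M' F F' : List (Site d)} {y : Site d}
    (h : (M' ++ F').Perm (y :: (M ++ F))) : (S ++ M' ++ F').Perm (y :: (S ++ M ++ F)) := by
  rw [List.append_assoc, List.append_assoc]
  exact (List.Perm.append_left S h).trans List.perm_middle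

theorem cr_nonneg (g : ℕ → ℝ) (S : Set (Site d)) (F : List (Site d)) : 0 ≤ cr g S F := by
  induction F with
  | nil => simp [cr]
  | cons x F ih => exact ih.trans (le_max_right _ _)

theorem cr_ge (g : ℕ → ℝ) (S : Set (Site d)) (F : List (Site d)) (v : Site d) (hv : v ∈ F) :
    g (dv S v) ≤ cr g S F := by
  induction F with
  | nil => simp at hv
  | cons x F ih =>
    rcases List.mem_cons.1 hv with rfl | h
    · exact le_max_left _ _
    · exact (ih h).trans (le_max_right _ _)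

theorem VV_eq (k : Site d → ℝ) (μ γ w : ℝ) (g : ℕ → ℝ) (B : Set (Site d)) (x0 x : Site d)
    (S0 : List (Site d)) (e : ES d) :
    VV k μ γ w g B x0 S0 e = (Psi k μ γ x0 x (en k S0) 0 (S0 ++ e.M ++ e.F) (e.M ++ e.F)
      e.F.length - cr g ((e.A : Set (Site d)) ∩ B) e.F) / w ^ 2 := by
  unfold VV Psi
  congr 1
  push_cast
  ring

section Claims

variable {ν : PMF ℕ} {k : Site d → ℝ} {l : ℕ} {μ γ w : ℝ} {g : ℕ → ℝ}
  (D B : Set (Site d)) (x0 x : Site d) (S0 : List (Site d))

theorem arr_bound (P : Par d ν k l μ γ g) (m : ℕ) (y : Site d) (e : ES d) (len : ℝ)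
    (hl : ((arrE D B y e).F.length : ℝ) ≤ len) :
    Psi k μ γ x0 x (en k S0) m (S0 ++ (arrE D B y e).M ++ (arrE D B y e).F)
      ((arrE D B y e).M ++ (arrE D B y e).F) (arrE D B y e).F.length ≤
    Psi k μ γ x0 x (en k S0) m (y :: (S0 ++ e.M ++ e.F)) (y :: (e.M ++ e.F)) len := by
  have hp := arrE_perm D B y e
  rw [Psi_perm k μ γ x0 x (en k S0) m _ (perm3 hp) hp]
  have h1 : len = ((arrE D B y e).F.length : ℝ) + (len - (arrE D B y e).F.length) := by ring
  rw [h1, Psi_len]
  have := mul_nonneg P.ga_pos.le (sub_nonneg.2 hl)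
  linarith

theorem en_le (P : Par d ν k l μ γ g) (y : Site d) (e : ES d) :
    en k S0 ≤ en k (y :: (S0 ++ e.M ++ e.F)) := by
  rw [en_cons k P.k_symm, List.append_assoc]
  have h1 := en_append_ge k P.k_symm P.k_nn S0 (e.M ++ e.F)
  have h2 : 0 ≤ ((S0 ++ (e.M ++ e.F)).map fun q => k (y - q)).sum :=
    List.sum_nonneg fun a ha => by
      obtain ⟨q, _, rfl⟩ := List.mem_map.1 ha
      exact P.k_nn _
  have h3 := P.k_nn 0
  linarith

/-- The bound without reward. -/
theorem claimA (hd : 0 < d) (P : Par d ν k l μ γ g) (hw : 0 < w) (m : ℕ) (e : ES d) :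
    stE D B x m (fun e => ENNReal.ofReal (VV k μ γ w g B x0 S0 e)) e ≤
      ENNReal.ofReal (Psi k μ γ x0 x (en k S0) m (S0 ++ e.M ++ e.F) (e.M ++ e.F)
        e.F.length / w ^ 2) := by
  induction m generalizing e with
  | zero =>
    rw [stE]
    refine ENNReal.ofReal_le_ofReal ?_
    rw [VV_eq k μ γ w g B x0 x S0 e]
    refine div_le_div_of_nonneg_right ?_ (by positivity)
    have := cr_nonneg g ((e.A : Set (Site d)) ∩ B) e.F
    linarith
  | succ m ih =>
    rw [stE]
    refine avg_le hd _ (fun u => Psi k μ γ x0 x (en k S0) m ((x + uvec u) :: (S0 ++ e.M ++ e.F))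
      ((x + uvec u) :: (e.M ++ e.F)) ((e.F.length : ℝ) + 1) / w ^ 2) _ (fun u => ?_)
      (fun u => ?_) ?_
    · exact div_nonneg (Psi_nonneg k μ γ x0 x _ m _ _ _ P.mu_pos.le P.ga_pos.le P.k_nn
        (en_le S0 P _ e) (by positivity)) (by positivity)
    · refine (ih _).trans (ENNReal.ofReal_le_ofReal ?_)
      exact div_le_div_of_nonneg_right
        (arr_bound D B x0 x S0 P m _ e _ (arrE_len D B _ e)) (by positivity)
    · rw [← Finset.sum_div, div_right_comm, Psi_avg hd k P.k_symm]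

theorem dv_pos (A : Finset (Site d)) (hd : 0 < d) (v : Site d)
    (hv : v ∈ (A : Set (Site d)) ∩ B) : 1 ≤ dv ((A : Set (Site d)) ∩ B) v := by
  by_contra h
  have h0 : dv ((A : Set (Site d)) ∩ B) v = 0 := by omega
  unfold dv at h0
  rcases Nat.sInf_eq_zero.1 h0 with ⟨y, hy, hl⟩ | h1
  · have : y = v := by
      unfold l1 at hl
      funext i
      have := (Finset.sum_eq_zero_iff.1 hl) i (Finset.mem_univ i)
      have h3 : (y - v) i = 0 := Int.natAbs_eq_zero.1 this
      simpa [sub_eq_zero] using h3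
    exact hy (this ▸ hv)
  · have : Nonempty (Fin d) := ⟨⟨0, hd⟩⟩
    have : Infinite (Site d) := by
      refine Infinite.of_injective (fun n : ℤ => (Function.const (Fin d) n : Site d)) ?_
      exact Function.const_injective
    obtain ⟨y, hy⟩ := Infinite.exists_notMem_finset A
    have : l1 (y - v) ∈ {j | ∃ y, y ∉ (A : Set (Site d)) ∩ B ∧ l1 (y - v) = j} :=
      ⟨y, fun h => hy (by exact_mod_cast h.1), rfl⟩
    rw [h1] at this
    exact this

/-- The bound with the reward of an active particle, if nothing can settle. -/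
theorem claimC (hd : 0 < d) (P : Par d ν k l μ γ g) (hw : 0 < w) (m : ℕ) (e : ES d)
    (v : Site d) (hv : v ∈ e.F) (hvS : v ∈ (e.A : Set (Site d)) ∩ B)
    (hN : ∀ u : Dir d, x + uvec u ∈ (e.A : Set (Site d)) ∩ B) :
    stE D B x m (fun e => ENNReal.ofReal (VV k μ γ w g B x0 S0 e)) e ≤
      ENNReal.ofReal ((Psi k μ γ x0 x (en k S0) m (S0 ++ e.M ++ e.F) (e.M ++ e.F)
        e.F.length - g (dv ((e.A : Set (Site d)) ∩ B) v)) / w ^ 2) := by
  induction m generalizing e with
  | zero =>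
    rw [stE]
    refine ENNReal.ofReal_le_ofReal ?_
    rw [VV_eq k μ γ w g B x0 x S0 e]
    refine div_le_div_of_nonneg_right ?_ (by positivity)
    have := cr_ge g ((e.A : Set (Site d)) ∩ B) e.F v hv
    linarith
  | succ m ih =>
    rw [stE]
    refine avg_le hd _ (fun u => (Psi k μ γ x0 x (en k S0) m
      ((x + uvec u) :: (S0 ++ e.M ++ e.F)) ((x + uvec u) :: (e.M ++ e.F))
      ((e.F.length : ℝ) + 1) - g (dv ((e.A : Set (Site d)) ∩ B) v)) / w ^ 2) _ (fun u => ?_)
      (fun u => ?_) ?_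
    · refine div_nonneg ?_ (by positivity)
      rw [Psi_len]
      have h1 := Psi_nonneg k μ γ x0 x (en k S0) m ((x + uvec u) :: (S0 ++ e.M ++ e.F))
        ((x + uvec u) :: (e.M ++ e.F)) (e.F.length : ℝ) P.mu_pos.le P.ga_pos.le P.k_nn
        (en_le S0 P _ e) (by positivity)
      have h2 := P.g_le _ (dv_pos B e.A hd v hvS)
      linarith
    · have he := arrE_in D B (x + uvec u) e (hN u)
      have hb := arr_bound D B x0 x S0 P m (x + uvec u) e _ (arrE_len D B _ e)
      rw [he] at hb ⊢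
      refine (ih ⟨e.A, (x + uvec u) :: e.F, e.M, e.O⟩ (List.mem_cons_of_mem _ hv) hvS hN).trans
        (ENNReal.ofReal_le_ofReal ?_)
      refine div_le_div_of_nonneg_right ?_ (by positivity)
      simp only at hb ⊢
      linarith
    · rw [← Finset.sum_div, div_right_comm]
      refine div_le_div_of_nonneg_right ?_ (by positivity)
      rw [Finset.sum_sub_distrib, sub_div, Psi_avg hd k P.k_symm, Finset.sum_const,
        Finset.card_univ, Fintype.card_prod, Fintype.card_fin, Fintype.card_bool,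
        nsmul_eq_mul]
      have hd' : (2 * (d : ℝ)) ≠ 0 := by positivity
      have : ((d * 2 : ℕ) : ℝ) * g (dv ((e.A : Set (Site d)) ∩ B) v) / (2 * d) =
          g (dv ((e.A : Set (Site d)) ∩ B) v) := by
        push_cast
        field_simp
      rw [this]

end Claims

/-! ## the distance -/

theorem l1_step (z : Site d) (j : ℕ) (h : l1 z = j + 1) :
    ∃ u : Dir d, l1 (z - uvec u) = j := by
  have hne : ∃ i, z i ≠ 0 := by
    by_contra hc
    push Not at hc
    have : l1 z = 0 := by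
      unfold l1
      simp [hc]
    omega
  obtain ⟨i, hi⟩ := hne
  refine ⟨(i, decide (0 < z i)), ?_⟩
  unfold l1 at h ⊢
  rw [← Finset.add_sum_erase _ _ (Finset.mem_univ i)] at h ⊢
  have h1 : ∀ j' ∈ Finset.univ.erase i, ((z - uvec (i, decide (0 < z i))) j').natAbs =
      (z j').natAbs := by
    intro j' hj
    have hj' : j' ≠ i := (Finset.mem_erase.1 hj).1
    simp [uvec, Pi.single_eq_of_ne hj']
  rw [Finset.sum_congr rfl h1]
  have h2 : ((z - uvec (i, decide (0 < z i))) i).natAbs + 1 = (z i).natAbs := by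
    simp only [Pi.sub_apply, uvec, Pi.single_eq_same, decide_eq_true_eq]
    split_ifs with hp
    · omega
    · omega
  omega

theorem dv_spec (A : Finset (Site d)) (B : Set (Site d)) (hd : 0 < d) (v : Site d)
    (hv : v ∈ (A : Set (Site d)) ∩ B) :
    ∃ y, y ∉ (A : Set (Site d)) ∩ B ∧ l1 (y - v) = dv ((A : Set (Site d)) ∩ B) v := by
  have h1 := dv_pos B A hd v hv
  have hne : ({j | ∃ y, y ∉ (A : Set (Site d)) ∩ B ∧ l1 (y - v) = j} : Set ℕ).Nonempty := by
    by_contra hc
    rw [Set.not_nonempty_iff_eq_empty] at hc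
    unfold dv at h1
    rw [hc, Nat.sInf_empty] at h1
    omega
  exact Nat.sInf_mem hne

theorem dv_le (S : Set (Site d)) (v y : Site d) (hy : y ∉ S) : dv S v ≤ l1 (y - v) :=
  Nat.sInf_le ⟨y, hy, rfl⟩

theorem l1_uvec (u : Dir d) : l1 (uvec u) = 1 := by
  unfold l1
  rw [Finset.sum_eq_single u.1]
  · simp only [uvec, Pi.single_eq_same]
    split_ifs <;> simp
  · intro j _ hj
    simp [uvec, Pi.single_eq_of_ne hj]
  · simp

theorem l1_eq_zero (z : Site d) (h : l1 z = 0) : z = 0 := by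
  funext i
  have := (Finset.sum_eq_zero_iff.1 h) i (Finset.mem_univ i)
  exact Int.natAbs_eq_zero.1 this

theorem t_DRF : S_DRF := by
  intro d ν k l μ γ w g D B x0 x S0 A F M O m hd3 P hw hF hxA hxB
  have hd : 0 < d := by omega
  have hdR : (0 : ℝ) < 2 * d := by positivity
  have hxS : x ∈ (A : Set (Site d)) ∩ B := ⟨hxA, hxB⟩
  have hw2 : 0 < w ^ 2 := by positivity
  rcases m with _ | m
  · refine (claimA D B x0 x S0 hd P hw 0 _).trans (ENNReal.ofReal_le_ofReal ?_)
    refine div_le_div_of_nonneg_right ?_ hw2.le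
    unfold Psi
    simp
  -- the common form of the bound
  have key : ∀ rw0 : ℝ, 0 ≤ rw0 → rw0 ≤ γ → ∀ u0 : Dir d,
      (stE D B x m (fun e => ENNReal.ofReal (VV k μ γ w g B x0 S0 e))
        (arrE D B (x + uvec u0) ⟨A, F, M, O⟩) ≤
        ENNReal.ofReal ((Psi k μ γ x0 x (en k S0) m ((x + uvec u0) :: (S0 ++ M ++ F))
          ((x + uvec u0) :: (M ++ F)) ((F.length : ℝ) + 1) - rw0) / w ^ 2)) →
      stE D B x (m + 1) (fun e => ENNReal.ofReal (VV k μ γ w g B x0 S0 e)) ⟨A, F, M, O⟩ ≤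
        ENNReal.ofReal ((Psi k μ γ x0 x (en k S0) (m + 1) (S0 ++ M ++ F) (M ++ F) F.length -
          rw0 / (2 * d)) / w ^ 2) := by
    intro rw0 h0 hg u0 hu0
    rw [stE]
    classical
    refine avg_le hd _ (fun u => (Psi k μ γ x0 x (en k S0) m
      ((x + uvec u) :: (S0 ++ M ++ F)) ((x + uvec u) :: (M ++ F))
      ((F.length : ℝ) + 1) - (if u = u0 then rw0 else 0)) / w ^ 2) _ (fun u => ?_)
      (fun u => ?_) ?_
    · refine div_nonneg ?_ hw2.le
      rw [Psi_len]
      have h1 := Psi_nonneg k μ γ x0 x (en k S0) m ((x + uvec u) :: (S0 ++ M ++ F))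
        ((x + uvec u) :: (M ++ F)) (F.length : ℝ) P.mu_pos.le P.ga_pos.le P.k_nn
        (en_le S0 P (x + uvec u) ⟨A, F, M, O⟩) (by positivity)
      have h2 : (if u = u0 then rw0 else 0) ≤ γ := by
        split_ifs
        · exact hg
        · exact P.ga_pos.le
      linarith
    · by_cases hu : u = u0
      · subst hu
        simpa using hu0
      · rw [if_neg hu, sub_zero]
        refine (claimA D B x0 x S0 hd P hw m _).trans (ENNReal.ofReal_le_ofReal ?_)
        exact div_le_div_of_nonneg_right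
          (arr_bound D B x0 x S0 P m _ ⟨A, F, M, O⟩ _ (arrE_len D B _ _)) hw2.le
    · rw [← Finset.sum_div, div_right_comm]
      refine div_le_div_of_nonneg_right ?_ hw2.le
      rw [Finset.sum_sub_distrib, sub_div, Psi_avg hd k P.k_symm]
      simp
  have fin : ∀ rw0 : ℝ,
      ENNReal.ofReal ((Psi k μ γ x0 x (en k S0) (m + 1) (S0 ++ M ++ F) (M ++ F) F.length -
          rw0 / (2 * d)) / w ^ 2) =
      ENNReal.ofReal ((μ * (en k (S0 ++ M ++ F) +
          2 * ((m + 1 : ℕ) : ℝ) * ((S0 ++ M ++ F).map fun q => PP k (x - q)).sum +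
          ((m + 1 : ℕ) : ℝ) * k 0 +
          ((m + 1 : ℕ) : ℝ) * (((m + 1 : ℕ) : ℝ) - 1) * PP (PP k) 0 - en k S0) +
        ((M ++ F).map fun y => nsq (y - x0)).sum + ((m + 1 : ℕ) : ℝ) * (nsq (x - x0) + 1) +
        γ * (F.length + ((m + 1 : ℕ) : ℝ)) - rw0 / (2 * d)) / w ^ 2) := by
    intro rw0
    unfold Psi
    rfl
  rw [if_neg (Nat.succ_ne_zero m), ← fin]
  obtain ⟨y, hyS, hyl⟩ := dv_spec A B hd x hxS
  have hj1 := dv_pos B A hd x hxS
  unfold rw'
  split_ifs with h1 h2
  · -- a vacant (or outside) neighbour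
    have hj : l1 (y - x) = 0 + 1 := by omega
    obtain ⟨u0, hu0⟩ := l1_step _ _ hj
    have hyx : x + uvec u0 = y := by
      have := l1_eq_zero _ hu0
      have h3 : y - x = uvec u0 := sub_eq_zero.1 this
      rw [← h3]
      abel
    refine key γ P.ga_pos.le le_rfl u0 ?_
    refine (claimA D B x0 x S0 hd P hw m _).trans (ENNReal.ofReal_le_ofReal ?_)
    refine div_le_div_of_nonneg_right ?_ hw2.le
    have h4 := arr_bound D B x0 x S0 P m (x + uvec u0) ⟨A, F, M, O⟩ _
      (arrE_len' D B _ _ (by rw [hyx]; exact hyS))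
    rw [Psi_len]
    simp only at h4 ⊢
    linarith
  · -- approach to the vacancy
    have hN : ∀ u : Dir d, x + uvec u ∈ (A : Set (Site d)) ∩ B := by
      intro u
      by_contra hc
      have := dv_le _ x _ hc
      rw [add_sub_cancel_left, l1_uvec] at this
      omega
    obtain ⟨j, hj⟩ : ∃ j, dv ((A : Set (Site d)) ∩ B) x = j + 1 := ⟨_, (Nat.succ_pred_eq_of_pos hj1).symm⟩
    obtain ⟨u0, hu0⟩ := l1_step _ j (hyl.trans hj)
    have hv : dv ((A : Set (Site d)) ∩ B) (x + uvec u0) ≤ j := by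
      refine (dv_le _ _ y hyS).trans ?_
      rw [← hu0, sub_add_eq_sub_sub]
    have hvS := hN u0
    have hv1 := dv_pos B A hd _ hvS
    have hgj : g (dv ((A : Set (Site d)) ∩ B) x - 1) ≤
        g (dv ((A : Set (Site d)) ∩ B) (x + uvec u0)) := by
      refine P.g_anti ?_
      omega
    refine key _ (P.g_nn _) (P.g_le _ (by omega)) u0 ?_
    rw [arrE_in D B (x + uvec u0) ⟨A, F, M, O⟩ hvS]
    refine (claimC D B x0 x S0 hd P hw m ⟨A, (x + uvec u0) :: F, M, O⟩ (x + uvec u0)
      List.mem_cons_self hvS hN).trans (ENNReal.ofReal_le_ofReal ?_)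
    refine div_le_div_of_nonneg_right ?_ hw2.le
    have h4 := arr_bound D B x0 x S0 P m (x + uvec u0) ⟨A, F, M, O⟩ _
      (arrE_len D B _ _)
    rw [arrE_in D B (x + uvec u0) ⟨A, F, M, O⟩ hvS] at h4
    simp only at h4 ⊢
    linarith
  · rw [zero_div, sub_zero]
    exact claimA D B x0 x S0 hd P hw (m + 1) _

end Pool.Agent.H39.BD
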