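import Pool.Agent.H3.BI.Stm1

/-!
# Project BD, part LOC: the lower tail for the chain of the launches
-/

set_option autoImplicit false

open scoped ENNReal
open Finset
open Pool.Agent.H3.BI

namespace Pool.Agent.H39.BD

namespace LOC

variable {d : ℕ} {ν : PMF ℕ}

theorem steps_mono (D : Set (Site d)) (x : Site d) (k : ℕ) {f g : Cf d → ℝ≥0∞}
    (h : ∀ p, f p ≤ g p) (p : Cf d) : steps D x k f p ≤ steps D x k g p := by
  induction k generalizing p with
  | zero => exact h p
  | succ k ih =>
    simp only [steps]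
    exact ENNReal.div_le_div_right (Finset.sum_le_sum fun e _ => ih _) _

theorem top_mono (D : Set (Site d)) (x : Site d) {f g : Cf d → ℝ≥0∞}
    (h : ∀ p, f p ≤ g p) (p : Cf d) : top ν D x f p ≤ top ν D x g p := by
  unfold top
  exact ENNReal.tsum_le_tsum fun k => mul_le_mul_right (steps_mono D x k h p) _

theorem Ph_mono (D : Set (Site d)) {f g : Finset (Site d) → ℝ≥0∞} (h : ∀ A, f A ≤ g A)
    (n : ℕ) (p : Cf d) : Ph ν D f n p ≤ Ph ν D g n p := by
  induction n generalizing p with
  | zero =>
    rcases p with ⟨A, L⟩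
    rcases L with _ | ⟨x, L⟩
    · simpa using h A
    · simp
  | succ n ih =>
    rcases p with ⟨A, L⟩
    rcases L with _ | ⟨x, L⟩
    · simpa using h A
    · rw [Ph_succ_cons, Ph_succ_cons]
      exact top_mono D x ih _

theorem KD_mono (D : Set (Site d)) {f g : Finset (Site d) → ℝ≥0∞} (h : ∀ A, f A ≤ g A)
    (A : Finset (Site d)) : KD ν D f A ≤ KD ν D g A := by
  unfold KD
  exact iSup_mono fun n => Ph_mono D h n _

theorem Eg_mono (D : ℕ → Set (Site d)) (n : ℕ) {f g : Finset (Site d) → ℝ≥0∞}
    (h : ∀ A, f A ≤ g A) : Eg ν D n f ≤ Eg ν D n g := by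
  induction n generalizing f g with
  | zero => exact h _
  | succ n ih =>
    simp only [Eg]
    exact ih fun A => KD_mono _ (fun B => mul_le_mul_right (h B) _) A

theorem steps_mul (D : Set (Site d)) (x : Site d) (k : ℕ) (c : ℝ≥0∞) (f : Cf d → ℝ≥0∞)
    (p : Cf d) : steps D x k (fun q => c * f q) p = c * steps D x k f p := by
  induction k generalizing p with
  | zero => rfl
  | succ k ih =>
    simp only [steps]
    rw [Finset.sum_congr rfl fun e _ => ih _, ← Finset.mul_sum, mul_div_assoc]

theorem top_mul (D : Set (Site d)) (x : Site d) (c : ℝ≥0∞) (f : Cf d → ℝ≥0∞) (p : Cf d) :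
    top ν D x (fun q => c * f q) p = c * top ν D x f p := by
  unfold top
  rw [← ENNReal.tsum_mul_left]
  refine tsum_congr fun k => ?_
  rw [steps_mul]
  ring

theorem Ph_mul (D : Set (Site d)) (c : ℝ≥0∞) (f : Finset (Site d) → ℝ≥0∞) (n : ℕ)
    (p : Cf d) : Ph ν D (fun B => c * f B) n p = c * Ph ν D f n p := by
  induction n generalizing p with
  | zero =>
    rcases p with ⟨A, L⟩
    rcases L with _ | ⟨x, L⟩
    · simp
    · simp
  | succ n ih =>
    rcases p with ⟨A, L⟩
    rcases L with _ | ⟨x, L⟩
    · simp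
    · rw [Ph_succ_cons, Ph_succ_cons, ← top_mul]
      congr 1
      funext q
      exact ih q

theorem KD_mul (D : Set (Site d)) (c : ℝ≥0∞) (f : Finset (Site d) → ℝ≥0∞)
    (A : Finset (Site d)) : KD ν D (fun B => c * f B) A = c * KD ν D f A := by
  unfold KD
  rw [ENNReal.mul_iSup]
  exact iSup_congr fun n => Ph_mul D c f n _

theorem Eg_mul (D : ℕ → Set (Site d)) (n : ℕ) (c : ℝ≥0∞) (f : Finset (Site d) → ℝ≥0∞) :
    Eg ν D n (fun B => c * f B) = c * Eg ν D n f := by
  induction n generalizing f with
  | zero => rfl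
  | succ n ih =>
    simp only [Eg]
    rw [← ih]
    congr 1
    funext A
    rw [← KD_mul]
    congr 1
    funext B
    ring

theorem arr_mem (D : Set (Site d)) (y z : Site d) (p : Cf d) (h : z ∈ p.1) :
    z ∈ (arr D y p).1 := by
  classical
  unfold arr
  split_ifs
  · exact h
  · exact h
  · exact Finset.mem_insert_of_mem h

theorem steps_zero (D : Set (Site d)) (x z : Site d) (k : ℕ) {f : Cf d → ℝ≥0∞}
    (h : ∀ p : Cf d, z ∈ p.1 → f p = 0) (p : Cf d) (hp : z ∈ p.1) : steps D x k f p = 0 := by
  induction k generalizing p with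
  | zero => exact h p hp
  | succ k ih =>
    simp only [steps]
    rw [Finset.sum_eq_zero fun e _ => ih _ (arr_mem D _ z p hp), ENNReal.zero_div]

theorem Ph_zero (D : Set (Site d)) (z : Site d) {f : Finset (Site d) → ℝ≥0∞}
    (h : ∀ A : Finset (Site d), z ∈ A → f A = 0) (n : ℕ) (p : Cf d) (hp : z ∈ p.1) :
    Ph ν D f n p = 0 := by
  induction n generalizing p with
  | zero =>
    rcases p with ⟨A, L⟩
    rcases L with _ | ⟨x, L⟩
    · simpa using h A hp
    · simp
  | succ n ih =>
    rcases p with ⟨A, L⟩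
    rcases L with _ | ⟨x, L⟩
    · simpa using h A hp
    · rw [Ph_succ_cons, top]
      rw [ENNReal.tsum_eq_zero]
      intro k
      rw [steps_zero D x z k ih (A, L) hp, mul_zero]

theorem t_LOC : S_LOC := by
  intro hLOW ν hν
  obtain ⟨C, hC, hlow⟩ := hLOW ν hν
  refine ⟨C, hC, ?_⟩
  intro d hd R z a b β n hR hz
  induction n with
  | zero =>
    intro _
    simp only [Eg]
    have h1 : (ind (fun A : Finset (Site d) => z ∉ A) {0} : ℝ≥0∞) ≤ 1 := by
      unfold ind
      split_ifs <;> simp
    calc _ ≤ 1 * ENNReal.ofReal (Real.exp (-∑ y ∈ ({0} : Finset (Site d)), a y)) :=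
          mul_le_mul_left h1 _
      _ = _ := by simp
  | succ n ih =>
    intro hb
    have ih' := ih fun s h1 h2 => hb s h1 (h2.trans (Nat.le_succ n))
    obtain ⟨hHL, hβ⟩ := hb (n + 1) (Nat.le_add_left 1 n) le_rfl
    simp only [Eg]
    have h0 : (0 : Site d) ∈ Bl d (R (n + 1)) := by
      have : nrm (0 : Site d) = 0 := by
        unfold nrm nsq
        simp
      show nrm (0 : Site d) ≤ R (n + 1)
      rw [this]
      exact hR _
    have hK : ∀ A : Finset (Site d), KD ν (Bl d (R (n + 1))) (fun B =>
        ind (fun B : Finset (Site d) => (B : Set (Site d)) ⊆ Bl d (R (n + 1))) B *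
          (ind (fun A : Finset (Site d) => z ∉ A) B *
            ENNReal.ofReal (Real.exp (-∑ y ∈ B, a y)))) A ≤
        ENNReal.ofReal (Real.exp (-(a 0) + β (n + 1))) *
          (ind (fun A : Finset (Site d) => z ∉ A) A *
            ENNReal.ofReal (Real.exp (-∑ y ∈ A, a y))) := by
      intro A
      by_cases hzA : z ∈ A
      · have : KD ν (Bl d (R (n + 1))) (fun B =>
            ind (fun B : Finset (Site d) => (B : Set (Site d)) ⊆ Bl d (R (n + 1))) B *
            (ind (fun A : Finset (Site d) => z ∉ A) B *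
              ENNReal.ofReal (Real.exp (-∑ y ∈ B, a y)))) A = 0 := by
          unfold KD
          rw [ENNReal.iSup_eq_zero]
          intro m
          refine Ph_zero _ z (fun B hB => ?_) m _ hzA
          have : (ind (fun A : Finset (Site d) => z ∉ A) B : ℝ≥0∞) = 0 := by
            unfold ind
            rw [if_neg (not_not.2 hB)]
          rw [this, zero_mul, mul_zero]
        rw [this]
        exact zero_le
      · have h1 : (ind (fun A : Finset (Site d) => z ∉ A) A : ℝ≥0∞) = 1 := by
          unfold ind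
          rw [if_pos hzA]
        rw [h1, one_mul, ← ENNReal.ofReal_mul (Real.exp_nonneg _), ← Real.exp_add]
        unfold KD
        refine iSup_le fun m => ?_
        have h2 := hlow d hd (Bl d (R (n + 1))) z a (b (n + 1)) hHL m A [0]
          (fun x hx => by
            rw [List.mem_singleton.1 hx]
            exact ⟨h0, hz.symm⟩)
        refine (le_trans (Ph_mono _ (fun B => ?_) m _) h2).trans
          (ENNReal.ofReal_le_ofReal (Real.exp_le_exp.2 ?_))
        · rw [← mul_assoc]
          refine mul_le_mul_left ?_ _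
          unfold ind
          by_cases q1 : (B : Set (Site d)) ⊆ Bl d (R (n + 1))
          · by_cases q2 : z ∉ B
            · simp [q1, q2]
            · simp [q2]
          · simp [q1]
        · simp only [List.map_cons, List.map_nil, List.sum_cons, List.sum_nil]
          linarith
    refine (Eg_mono _ n hK).trans ?_
    rw [Eg_mul]
    refine (mul_le_mul_right ih' _).trans ?_
    rw [← ENNReal.ofReal_mul (Real.exp_nonneg _), ← Real.exp_add]
    refine ENNReal.ofReal_le_ofReal (Real.exp_le_exp.2 (le_of_eq ?_))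
    rw [Finset.sum_Icc_succ_top (Nat.le_add_left 1 n)]
    push_cast
    ring

end LOC

theorem t_LOC : S_LOC := LOC.t_LOC

end Pool.Agent.H39.BD
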