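import Pool.Agent.H3.BI.Stm1

/-!
# Project BD, part NTT: no thin tentacles, assembly
-/

set_option autoImplicit false

open scoped ENNReal
open Finset
open Pool.Agent.H3.BI

namespace Pool.Agent.H39.BD

theorem t_NTT : S_NTT := by
  intro hPAR hSML hLEV d ν hd hν
  obtain ⟨k, l, μ, γ, g, C, P, hC, hk⟩ := hPAR d ν hd hν
  obtain ⟨C', hC', hS⟩ := hSML d k μ γ C hd P.mu_pos P.ga_pos hC P.k_nn hk
  refine ⟨C', hC', ?_⟩
  intro D z J w A hJ hw hz h0A h0D hr
  have hw1 : 1 ≤ w := hC'.trans hw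
  have hw2 : 0 < w + 2 := by linarith
  unfold KD
  refine iSup_le fun n => ?_
  refine (hLEV d ν k l μ γ w (w ^ d / C') g D z J n A [0] hd hν P hw1 hJ (hS w hw) hz
    (fun x hx => by rw [List.mem_singleton.1 hx]; exact ⟨h0A, h0D⟩)).trans
    (ENNReal.ofReal_le_ofReal (le_of_eq ?_))
  simp only [List.map_cons, List.map_nil, List.sum_cons, List.sum_nil, add_zero]
  have hn : nrm ((0 : Site d) - z) = nrm z := by
    unfold nrm nsq
    simp
  have hlev : lev z w J 0 = 0 := by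
    unfold lev
    rw [hn]
    refine Nat.floor_eq_zero.2 (lt_of_le_of_lt ?_ one_pos)
    exact div_nonpos_of_nonpos_of_nonneg (by linarith) hw2.le
  unfold wt
  rw [hlev]
  obtain ⟨j, rfl⟩ : ∃ j, J = j + 2 := ⟨J - 2, by omega⟩
  simp only [Nat.zero_sub, pow_zero, Nat.add_sub_cancel]
  rw [pow_add]
  have : (2 : ℝ) ^ j ≠ 0 := by positivity
  field_simp
  norm_num

end Pool.Agent.H39.BD
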