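import Pool.Agent.H3.BI.Stm2

/-!
# Project BD, part FSH: the majorant is superharmonic with a large defect
-/

set_option autoImplicit false

open scoped ENNReal
open Finset
open Pool.Agent.H3.BI

namespace Pool.Agent.H39.BD

namespace FSH

variable {d : ℕ}

theorem cast_uvec (e : Dir d) (i : Fin d) : ((uvec e i : ℤ) : ℝ) = rvec e i := by
  unfold uvec rvec
  by_cases h : i = e.1
  · subst h
    simp only [Pi.single_eq_same]
    split_ifs <;> simp
  · rw [Pi.single_eq_of_ne h, Pi.single_eq_of_ne h]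
    simp

theorem PP_eq_PR (F : (Fin d → ℝ) → ℝ) (c : Fin d → ℝ) (x : Site d) :
    PP (fun y => F (fun i => (y i : ℝ) - c i)) x = PR F (fun i => (x i : ℝ) - c i) := by
  unfold PP PR
  congr 1
  refine Finset.sum_congr rfl fun e _ => ?_
  show F (fun i => (((x + uvec e) i : ℤ) : ℝ) - c i) = F _
  congr 1
  funext i
  simp only [Pi.add_apply]
  rw [← cast_uvec e i]
  push_cast
  ring

theorem PP_sub (f g : Site d → ℝ) (x : Site d) :
    PP (fun y => f y - g y) x = PP f x - PP g x := by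
  unfold PP
  rw [Finset.sum_sub_distrib, sub_div]

theorem PP_smul (c : ℝ) (f : Site d → ℝ) (x : Site d) :
    PP (fun y => c * f y) x = c * PP f x := by
  unfold PP
  rw [← Finset.mul_sum, mul_div_assoc]

/-- Conditions of KDI. -/
theorem cond (a : ℝ) (w : Fin d → ℝ) (ha : 3 ≤ a) :
    1 ≤ qr w + a ∧ 4 * Real.sqrt (qr w) ≤ qr w + a + 1 ∧ qr w ≤ 2 * (qr w + a) := by
  have h0 : 0 ≤ qr w := Finset.sum_nonneg fun _ _ => sq_nonneg _
  refine ⟨by linarith, ?_, by linarith⟩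
  have h1 := Real.sq_sqrt h0
  nlinarith [sq_nonneg (Real.sqrt (qr w) - 2)]

/-- The difference of the powers. -/
theorem pow_diff (s D q : ℝ) (hs : 0 < s) (hD : 0 < D) (hq : 1 ≤ q) :
    s ^ (-q) * (D / (s + D)) ≤ s ^ (-q) - (s + D) ^ (-q) := by
  have hsD : 0 < s + D := by linarith
  have h1 : (s + D) ^ (-q) = s ^ (-q) * (s / (s + D)) ^ q := by
    rw [Real.div_rpow hs.le hsD.le, Real.rpow_neg hs.le, Real.rpow_neg hsD.le]
    have := (Real.rpow_pos_of_pos hs q).ne'
    field_simp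
  have h2 : (s / (s + D)) ^ q ≤ s / (s + D) := by
    have h3 : s / (s + D) ≤ 1 := (div_le_one hsD).2 (by linarith)
    have h4 : 0 < s / (s + D) := div_pos hs hsD
    calc (s / (s + D)) ^ q ≤ (s / (s + D)) ^ (1 : ℝ) :=
          Real.rpow_le_rpow_of_exponent_ge h4 h3 hq
      _ = _ := Real.rpow_one _
  have h5 : D / (s + D) = 1 - s / (s + D) := by
    field_simp
    ring
  rw [h1, h5]
  have h6 : 0 ≤ s ^ (-q) := Real.rpow_nonneg hs.le _
  nlinarith [mul_le_mul_of_nonneg_left h2 h6]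

/-- The main estimate. -/
theorem est (A B a C1 C s D X1 X2 Y1 Y2 t V : ℝ) (hA0 : 0 < A) (hB0 : 0 < B) (hC1 : 0 ≤ C1)
    (ha0 : 0 < a) (haB : 4 * C1 ≤ a * B) (hCA : 8 * C1 ≤ C * A) (hC : 1 ≤ C) (hD : C ≤ D)
    (hs0 : 0 < s) (ht : t = D / (s + D)) (hY12 : Y1 = s * Y2) (hY2n : 0 < Y2)
    (d1 : Y1 * t ≤ Y1 - X1) (d2 : Y2 * t ≤ Y2 - X2)
    (lower : A * (Y1 - X1) + B * a * (Y2 - X2) - C1 * (Y2 + X2) ≤ V) :
    A / 2 * (Y1 * t) ≤ V := by
  have hD0 : 0 < D := by linarith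
  have hsD : 0 < s + D := by linarith
  have ht0 : 0 < t := by rw [ht]; exact div_pos hD0 hsD
  have hY1n : 0 < Y1 := by rw [hY12]; exact mul_pos hs0 hY2n
  have hX2Y2 : X2 ≤ Y2 := by
    have := mul_pos hY2n ht0
    linarith
  refine le_trans ?_ lower
  have g1 : A * (Y1 * t) ≤ A * (Y1 - X1) := mul_le_mul_of_nonneg_left d1 hA0.le
  have g2 : B * a * (Y2 * t) ≤ B * a * (Y2 - X2) :=
    mul_le_mul_of_nonneg_left d2 (by positivity)
  have g3 : C1 * (Y2 + X2) ≤ 2 * C1 * Y2 := by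
    have := mul_le_mul_of_nonneg_left hX2Y2 hC1
    linarith
  rcases le_total D s with hDs | hDs
  · -- the first term wins
    have h1 : D / (2 * s) ≤ t := by
      rw [ht]
      exact div_le_div_of_nonneg_left hD0.le hsD (by linarith)
    have h2 : 4 * C1 * Y2 ≤ A * (Y1 * t) := by
      have h3 : Y1 * (D / (2 * s)) ≤ Y1 * t := mul_le_mul_of_nonneg_left h1 hY1n.le
      have h4 : Y1 * (D / (2 * s)) = Y2 * D / 2 := by
        rw [hY12]
        field_simp
      have h5 : A * (Y2 * D / 2) ≤ A * (Y1 * t) := by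
        rw [← h4]
        exact mul_le_mul_of_nonneg_left h3 hA0.le
      have h6 : 8 * C1 ≤ A * D := by
        have : C * A ≤ D * A := mul_le_mul_of_nonneg_right hD hA0.le
        linarith
      have h7 : 8 * C1 * Y2 ≤ A * D * Y2 := mul_le_mul_of_nonneg_right h6 hY2n.le
      have h8 : A * (Y2 * D / 2) = A * D * Y2 / 2 := by ring
      linarith
    have h7 : 0 ≤ B * a * (Y2 * t) := by positivity
    linarith
  · -- the second term wins
    have h1 : 1 / 2 ≤ t := by
      rw [ht, le_div_iff₀ hsD]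
      linarith
    have h2 : 2 * C1 * Y2 ≤ B * a * (Y2 * t) := by
      have h3 : 2 * C1 ≤ B * a * t := by
        have : B * a * (1 / 2) ≤ B * a * t := mul_le_mul_of_nonneg_left h1 (by positivity)
        linarith
      have h4 := mul_le_mul_of_nonneg_right h3 hY2n.le
      have h5 : B * a * t * Y2 = B * a * (Y2 * t) := by ring
      linarith
    have h8 : 0 ≤ A * (Y1 * t) := by positivity
    linarith

/-- Comparison of the ratios. -/
theorem cmp1 (a s D E t : ℝ) (ha : 0 < a) (hE : 1 ≤ E) (hD : 0 < D) (hEs : E + a = s + D)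
    (ht : t = D / (s + D)) (hs : 0 < s) : D / E ≤ (1 + a) * t := by
  have hsD : 0 < s + D := by linarith
  rw [ht, ← mul_div_assoc, div_le_div_iff₀ (by linarith) hsD, ← hEs]
  have h : E + a ≤ (1 + a) * E := by nlinarith
  calc D * (E + a) ≤ D * ((1 + a) * E) := mul_le_mul_of_nonneg_left h hD.le
    _ = _ := by ring

/-- Comparison of the powers. -/
theorem cmp2 (a g S s : ℝ) (ha : 1 ≤ a) (hg : 0 < g) (hS : 0 ≤ S) (hs : s = S + a) :
    (S + 1) ^ (-g - 1) ≤ a ^ (g + 1) * s ^ (-g - 1) := by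
  have ha0 : 0 < a := by linarith
  have hs0 : 0 < s := by linarith
  have h1 : s ≤ a * (S + 1) := by
    rw [hs]
    nlinarith
  have h2 : (a * (S + 1)) ^ (-g - 1) ≤ s ^ (-g - 1) :=
    Real.rpow_le_rpow_of_nonpos hs0 h1 (by linarith)
  rw [Real.mul_rpow ha0.le (by linarith)] at h2
  have h3 : a ^ (g + 1) * a ^ (-g - 1) = 1 := by
    rw [← Real.rpow_add ha0]
    simp
  calc (S + 1) ^ (-g - 1) = a ^ (g + 1) * (a ^ (-g - 1) * (S + 1) ^ (-g - 1)) := by
        rw [← mul_assoc, h3, one_mul]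
    _ ≤ _ := mul_le_mul_of_nonneg_left h2 (Real.rpow_nonneg ha0.le _)

theorem main (hK : S_KDI) (hG : S_GEO) : C_FSH := by
  intro d al c₀ hd hal hal2 hc0 hc1
  have hdR : (3 : ℝ) ≤ d := by exact_mod_cast hd
  have hd0 : (0 : ℝ) < d := by linarith
  obtain ⟨C1, hC1, hKDI⟩ := hK d (al / 2) hd (by linarith)
  obtain ⟨CG, hCG, hGEO⟩ := hG d c₀ hd hc0 hc1
  set g : ℝ := al / 2 with hg
  have hg0 : 0 < g := by rw [hg]; linarith
  set A : ℝ := g * (d - 2 - 2 * g) / d with hA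
  set B : ℝ := 2 * g * (g + 1) / d with hB
  have hA0 : 0 < A := by
    rw [hA]
    refine div_pos (mul_pos hg0 ?_) hd0
    rw [hg]; linarith
  have hB0 : 0 < B := by
    rw [hB]
    positivity
  refine ⟨max 3 (4 * C1 / B), le_max_left _ _, ?_⟩
  intro a ha
  have ha3 : 3 ≤ a := (le_max_left _ _).trans ha
  have haB : 4 * C1 ≤ a * B := by
    have := (le_max_right _ _).trans ha
    rwa [div_le_iff₀ hB0] at this
  have ha0 : 0 < a := by linarith
  refine ⟨max 1 (max (8 * C1 / A) (2 * a ^ (g + 1) * (1 + a) / A)), le_max_left _ _, ?_⟩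
  intro N z hgeo x _ hD
  set C : ℝ := max 1 (max (8 * C1 / A) (2 * a ^ (g + 1) * (1 + a) / A)) with hC
  have hC1' : 1 ≤ C := le_max_left _ _
  have hCA : 8 * C1 ≤ C * A := by
    have : 8 * C1 / A ≤ C := (le_max_left _ _).trans (le_max_right _ _)
    rwa [div_le_iff₀ hA0] at this
  have hCA2 : 2 * a ^ (g + 1) * (1 + a) ≤ C * A := by
    have : 2 * a ^ (g + 1) * (1 + a) / A ≤ C := (le_max_right _ _).trans (le_max_right _ _)
    rwa [div_le_iff₀ hA0] at this
  -- the scale of the image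
  have hN1 : nrm z + 1 ≤ N := by linarith [hgeo.hi]
  have hN0 : 0 < N := by linarith [nrm_nonneg z]
  have hz0 : 0 < nrm z := lt_of_lt_of_le (mul_pos hc0 hN0) hgeo.lo
  have hnz : 0 < nsq z := by rw [← nrm_sq]; positivity
  set κ : ℝ := nsq z / N ^ 2 with hκ
  have hκ0 : 0 < κ := by rw [hκ]; positivity
  have hκ1 : κ ≤ 1 := by
    rw [hκ, div_le_one (by positivity), ← nrm_sq]
    exact pow_le_pow_left₀ hz0.le (by linarith) 2
  obtain ⟨zs, hzs, -⟩ := hGEO N z ⟨hgeo.lo, by linarith⟩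
  set w : Fin d → ℝ := fun i => (x i : ℝ) - (z i : ℝ) with hw
  set w' : Fin d → ℝ := fun i => (x i : ℝ) - zs i with hw'
  set S : ℝ := nsq (x - z) with hS
  set E : ℝ := Ez N z x with hE
  have hSw : qr w = S := by
    rw [hS]
    unfold nsq qr
    simp [hw]
  have hEw : κ * qr w' = E := (hzs x).symm
  have hS0 : 0 ≤ S := nsq_nonneg _
  -- the two expansions
  have ha' : 3 ≤ a / κ := by
    rw [le_div_iff₀ hκ0]
    nlinarith
  have e1 := hKDI a w (cond a w ha3).1 (cond a w ha3).2.1 (cond a w ha3).2.2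
  have e2 := hKDI (a / κ) w' (cond _ w' ha').1 (cond _ w' ha').2.1 (cond _ w' ha').2.2
  have hQ : qr w' + a / κ = (E + a) / κ := by
    rw [← hEw]
    field_simp
  have hQpos : 0 < (E + a) / κ := by
    rw [← hQ]
    linarith [(cond _ w' ha').1]
  have hEa : 0 < E + a := by
    have := mul_pos hQpos hκ0
    rwa [div_mul_cancel₀ _ hκ0.ne'] at this
  -- the functions
  have f1 : PP (fun y : Site d => (nsq (y - z) + a) ^ (-g)) x =
      PR (fun v => (qr v + a) ^ (-g)) w := by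
    rw [hw, ← PP_eq_PR (fun v => (qr v + a) ^ (-g)) (fun i => (z i : ℝ)) x]
    congr 1
    funext y
    congr 2
    unfold nsq qr
    simp
  have f2 : PP (fun y : Site d => (Ez N z y + a) ^ (-g)) x =
      κ ^ (-g) * PR (fun v => (qr v + a / κ) ^ (-g)) w' := by
    rw [hw', ← PP_eq_PR (fun v => (qr v + a / κ) ^ (-g)) zs x, ← PP_smul]
    congr 1
    funext y
    have hq0 : 0 ≤ qr (fun i => (y i : ℝ) - zs i) :=
      Finset.sum_nonneg fun _ _ => sq_nonneg _
    have hpos : 0 ≤ qr (fun i => (y i : ℝ) - zs i) + a / κ := by positivity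
    rw [← Real.mul_rpow hκ0.le hpos, hzs y]
    congr 1
    rw [mul_add, mul_div_cancel₀ _ hκ0.ne']
  have f3 : (E + a) ^ (-g) = κ ^ (-g) * (qr w' + a / κ) ^ (-g) := by
    rw [hQ, ← Real.mul_rpow hκ0.le hQpos.le, mul_div_cancel₀ _ hκ0.ne']
  have p1 : κ ^ (-g) * ((E + a) / κ) ^ (-g - 1) = κ * (E + a) ^ (-g - 1) := by
    rw [Real.div_rpow hEa.le hκ0.le]
    have : κ ^ (-g) = κ * κ ^ (-g - 1) := by
      rw [Real.rpow_sub_one hκ0.ne']
      field_simp
    rw [this]
    have := (Real.rpow_pos_of_pos hκ0 (-g - 1)).ne'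
    field_simp
  have p2 : κ ^ (-g) * ((E + a) / κ) ^ (-g - 2) = κ ^ 2 * (E + a) ^ (-g - 2) := by
    rw [Real.div_rpow hEa.le hκ0.le]
    have : κ ^ (-g) = κ ^ 2 * κ ^ (-g - 2) := by
      rw [Real.rpow_sub hκ0]
      norm_num
      field_simp
    rw [this]
    have := (Real.rpow_pos_of_pos hκ0 (-g - 2)).ne'
    field_simp
  rw [hSw] at e1
  rw [← f1] at e1
  rw [hQ] at e2
  have e2' : (E + a) ^ (-g) - PP (fun y : Site d => (Ez N z y + a) ^ (-g)) x ≤
      A * κ * (E + a) ^ (-g - 1) + (B * a * κ + C1 * κ ^ 2) * (E + a) ^ (-g - 2) := by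
    have h1 := (abs_le.1 e2).2
    have h2 : 0 ≤ κ ^ (-g) := Real.rpow_nonneg hκ0.le _
    have h3 := mul_le_mul_of_nonneg_left h1 h2
    have h4 : κ ^ (-g) * (((E + a) / κ) ^ (-g) - PR (fun v => (qr v + a / κ) ^ (-g)) w') =
        (E + a) ^ (-g) - PP (fun y : Site d => (Ez N z y + a) ^ (-g)) x := by
      rw [f2, f3, hQ]
      ring
    have h5 : κ ^ (-g) * (A * ((E + a) / κ) ^ (-g - 1) +
        2 * g * (g + 1) * (a / κ) / d * ((E + a) / κ) ^ (-g - 2)) =
        A * κ * (E + a) ^ (-g - 1) + B * a * κ * (E + a) ^ (-g - 2) := by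
      have q1 : 2 * g * (g + 1) * (a / κ) / d = B * a / κ := by
        rw [hB]
        field_simp
      rw [q1]
      calc κ ^ (-g) * (A * ((E + a) / κ) ^ (-g - 1) + B * a / κ * ((E + a) / κ) ^ (-g - 2))
          = A * (κ ^ (-g) * ((E + a) / κ) ^ (-g - 1)) +
            B * a / κ * (κ ^ (-g) * ((E + a) / κ) ^ (-g - 2)) := by ring
        _ = A * (κ * (E + a) ^ (-g - 1)) + B * a / κ * (κ ^ 2 * (E + a) ^ (-g - 2)) := by
            rw [p1, p2]
        _ = _ := by field_simp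
    have h6 : κ ^ (-g) * (C1 * ((E + a) / κ) ^ (-g - 2)) = C1 * κ ^ 2 * (E + a) ^ (-g - 2) := by
      calc _ = C1 * (κ ^ (-g) * ((E + a) / κ) ^ (-g - 2)) := by ring
        _ = _ := by rw [p2]; ring
    have h7 : κ ^ (-g) * (((E + a) / κ) ^ (-g) - PR (fun v => (qr v + a / κ) ^ (-g)) w' -
        (A * ((E + a) / κ) ^ (-g - 1) +
        2 * g * (g + 1) * (a / κ) / d * ((E + a) / κ) ^ (-g - 2))) =
        (E + a) ^ (-g) - PP (fun y : Site d => (Ez N z y + a) ^ (-g)) x -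
        (A * κ * (E + a) ^ (-g - 1) + B * a * κ * (E + a) ^ (-g - 2)) := by
      rw [mul_sub, h4, h5]
    rw [h7, h6] at h3
    linarith
  have hfS : fS d a al N z x - PP (fS d a al N z) x =
      ((S + a) ^ (-g) - PP (fun y : Site d => (nsq (y - z) + a) ^ (-g)) x) -
      ((E + a) ^ (-g) - PP (fun y : Site d => (Ez N z y + a) ^ (-g)) x) := by
    have : PP (fS d a al N z) x = PP (fun y : Site d => (nsq (y - z) + a) ^ (-g)) x -
        PP (fun y : Site d => (Ez N z y + a) ^ (-g)) x := by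
      rw [← PP_sub]
      rfl
    rw [this]
    unfold fS
    ring
  -- abbreviations
  set s : ℝ := S + a with hs
  have hs0 : 0 < s := by rw [hs]; linarith
  set D : ℝ := E - S with hDd
  have hD0 : 0 < D := by linarith
  have hEs : E + a = s + D := by rw [hs, hDd]; ring
  set X1 : ℝ := (s + D) ^ (-g - 1) with hX1
  set X2 : ℝ := (s + D) ^ (-g - 2) with hX2
  set Y1 : ℝ := s ^ (-g - 1) with hY1
  set Y2 : ℝ := s ^ (-g - 2) with hY2
  set t : ℝ := D / (s + D) with ht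
  have hsD : 0 < s + D := by linarith
  have ht0 : 0 < t := div_pos hD0 hsD
  have d1 : Y1 * t ≤ Y1 - X1 := by
    have := pow_diff s D (g + 1) hs0 hD0 (by linarith)
    rwa [show -(g + 1) = -g - 1 by ring] at this
  have d2 : Y2 * t ≤ Y2 - X2 := by
    have := pow_diff s D (g + 2) hs0 hD0 (by linarith)
    rwa [show -(g + 2) = -g - 2 by ring] at this
  have hX1n : 0 ≤ X1 := Real.rpow_nonneg hsD.le _
  have hX2n : 0 ≤ X2 := Real.rpow_nonneg hsD.le _
  have hY1n : 0 < Y1 := Real.rpow_pos_of_pos hs0 _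
  have hY2n : 0 < Y2 := Real.rpow_pos_of_pos hs0 _
  have hY12 : Y1 = s * Y2 := by
    rw [hY1, hY2, show -g - 1 = (-g - 2) + 1 by ring, Real.rpow_add_one hs0.ne']
    ring
  have e1' := (abs_le.1 e1).1
  rw [hEs] at e2'
  have lower : A * (Y1 - X1) + B * a * (Y2 - X2) - C1 * (Y2 + X2) ≤
      fS d a al N z x - PP (fS d a al N z) x := by
    rw [hfS, hEs]
    have q2 : 2 * g * (g + 1) * a / d = B * a := by
      rw [hB]
      ring
    rw [q2] at e1'
    have r1 : A * κ * X1 ≤ A * X1 := by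
      have : A * κ ≤ A := by nlinarith
      exact mul_le_mul_of_nonneg_right this hX1n
    have r2 : (B * a * κ + C1 * κ ^ 2) * X2 ≤ (B * a + C1) * X2 := by
      refine mul_le_mul_of_nonneg_right ?_ hX2n
      have : κ ^ 2 ≤ 1 := by nlinarith
      have hBa : 0 < B * a := mul_pos hB0 ha0
      nlinarith
    linarith
  -- the main estimate
  have key : A / 2 * (Y1 * t) ≤ fS d a al N z x - PP (fS d a al N z) x :=
    est A B a C1 C s D X1 X2 Y1 Y2 t _ hA0 hB0 (by linarith) ha0 haB hCA hC1' hD hs0 rfl hY12 hY2n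
      d1 d2 lower
  -- comparison with the statement
  have hE0 : 1 ≤ E := by linarith
  have c1 : D / E ≤ (1 + a) * t := cmp1 a s D E t ha0 hE0 hD0 hEs rfl hs0
  have c2 : (S + 1) ^ (-g - 1) ≤ a ^ (g + 1) * Y1 := cmp2 a g S s (by linarith) hg0 hS0 rfl
  have c3 : 0 ≤ D / E := div_nonneg hD0.le (by linarith)
  calc (S + 1) ^ (-g - 1) * (D / E) ≤ (a ^ (g + 1) * Y1) * ((1 + a) * t) :=
        mul_le_mul c2 c1 c3 (mul_nonneg (Real.rpow_nonneg ha0.le _) hY1n.le)
    _ = (2 * a ^ (g + 1) * (1 + a)) * (1 / 2 * (Y1 * t)) := by ring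
    _ ≤ (C * A) * (1 / 2 * (Y1 * t)) :=
        mul_le_mul_of_nonneg_right hCA2 (by positivity)
    _ = C * (A / 2 * (Y1 * t)) := by ring
    _ ≤ C * (fS d a al N z x - PP (fS d a al N z) x) :=
        mul_le_mul_of_nonneg_left key (by linarith)

end FSH

theorem t_FSH : S_FSH := FSH.main

end Pool.Agent.H39.BD
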